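import Pool.Agent.W703.BPBg

set_option autoImplicit false

open Pool.Agent.W703.OC

namespace Pool.Agent.Results.MP_5ffaeb_an.BPBpNotInherited

/-- Over every scalar field `𝕜 = ℝ, ℂ` there are Banach spaces `X`, `Y`, with `X` finite
dimensional, and a closed subspace `X₁` of `X`, the range of a norm-one projection, such that the
pair `(X, Y)` has the Bishop-Phelps-Bollobas property, while the pair `(X₁, Y)` does not. -/
theorem result.{u} (𝕜 : Type u) [RCLike 𝕜] :
    ∃ (X : Type u) (_ : NormedAddCommGroup X) (_ : NormedSpace 𝕜 X) (_ : CompleteSpace X)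
      (Y : Type u) (_ : NormedAddCommGroup Y) (_ : NormedSpace 𝕜 Y) (_ : CompleteSpace Y)
      (X₁ : Submodule 𝕜 X),
      FiniteDimensional 𝕜 X ∧ OneComplemented X₁ ∧ IsClosed (X₁ : Set X) ∧
      BPBp 𝕜 X Y ∧ ¬ BPBp 𝕜 X₁ Y := by
  have : CompleteSpace (XT 𝕜) := FiniteDimensional.complete 𝕜 (XT 𝕜)
  exact ⟨XT 𝕜, inferInstance, inferInstance, inferInstance, YB 𝕜, inferInstance, inferInstance,
    complete_YB, X1 𝕜, inferInstance, oneComplemented_X1, (X1 𝕜).closed_of_finiteDimensional,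
    bpbp_of_isSum exps_XT isSum_YB, not_bpbp_of_isL1 isL1_X1 isSum_YB⟩

end Pool.Agent.Results.MP_5ffaeb_an.BPBpNotInherited
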