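import Pool.Agent.W703.CZero

set_option autoImplicit false

open scoped ZeroAtInfty
open Pool.Agent.W703.OC

namespace Pool.Agent.Results.MP_5ffaeb_an.DensityNotInherited

/-- Over every scalar field `𝕜 = ℝ, ℂ` there are Banach spaces `X`, `Y` and a closed subspace `X₁`
of `X`, the range of a norm-one projection, such that the norm-attaining operators from `X` into
every normed space `W` are dense (in particular into `Y`), while the norm-attaining operators from
`X₁` to `Y` are not dense. -/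
theorem result.{u, v} (𝕜 : Type u) [RCLike 𝕜] :
    ∃ (X : Type u) (_ : NormedAddCommGroup X) (_ : NormedSpace 𝕜 X) (_ : CompleteSpace X)
      (Y : Type u) (_ : NormedAddCommGroup Y) (_ : NormedSpace 𝕜 Y) (_ : CompleteSpace Y)
      (X₁ : Submodule 𝕜 X),
      OneComplemented X₁ ∧ IsClosed (X₁ : Set X) ∧
      (∀ (W : Type v) [NormedAddCommGroup W] [NormedSpace 𝕜 W], Dense (NA 𝕜 X W)) ∧
      Dense (NA 𝕜 X Y) ∧ ¬ Dense (NA 𝕜 X₁ Y) := by
  haveI : Nontrivial C₀(ℕ, 𝕜) := ⟨ce 𝕜 0, 0, fun h => by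
    have := norm_ce (𝕜 := 𝕜) 0
    rw [h, norm_zero] at this
    exact zero_ne_one this⟩
  haveI : CompleteSpace (GG (DD (𝕜 := 𝕜))) := (isClosed_GG _).completeSpace_coe
  refine ⟨XX 𝕜 C₀(ℕ, 𝕜), inferInstance, inferInstance, inferInstance, GG (DD (𝕜 := 𝕜)),
    inferInstance, inferInstance, inferInstance,
    LinearMap.range (jj (𝕜 := 𝕜) (Z := C₀(ℕ, 𝕜))).toLinearMap, oneComplemented_range, ?_,
    fun W _ _ => dense_NA W, dense_NA _, ?_⟩
  · exact (jj (𝕜 := 𝕜) (Z := C₀(ℕ, 𝕜))).isometry.isClosedEmbedding.isClosed_range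
  · intro h
    exact not_dense DD_injective flat_dir' (dense_pull (jj (𝕜 := 𝕜) (Z := C₀(ℕ, 𝕜))).equivRange h)

end Pool.Agent.Results.MP_5ffaeb_an.DensityNotInherited
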